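import Pool.Agent.H18.TE.Targets

/-!
# Backward heights, row FIX: the numbers fixed by all automorphisms
-/

set_option autoImplicit false

open MvPolynomial
open Pool.Agent.H12.ZD (pmap v O Res DenseOrbit NoInv)
open Pool.Agent.H18.HIT
open Pool.Agent.H8.ZA (HFam Const NA sz)
open Pool.Agent.H8.TD
open Pool.Agent.H18.TE

namespace Pool.Agent.H77.BKH

theorem pf_FIX : T_FIX := by
  intro K x hx
  have h0 : Algebra.IsAlgebraic K Qb := by
    have h1 : Algebra.IsAlgebraic ℚ Qb := AlgebraicClosure.isAlgebraic ℚ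
    exact Algebra.IsAlgebraic.tower_top (K := ℚ) K
  have h1 : IsAlgClosure K Qb := ⟨inferInstance, h0⟩
  have h2 : Normal K Qb := IsAlgClosure.normal K Qb
  have h3 : Algebra.IsSeparable K Qb := inferInstance
  have h4 : IsGalois K Qb := ⟨⟩
  have h5 : x ∈ (⊥ : IntermediateField K Qb) := (InfiniteGalois.mem_bot_iff_fixed x).2 hx
  rw [IntermediateField.mem_bot] at h5
  obtain ⟨y, rfl⟩ := h5
  exact y.2

end Pool.Agent.H77.BKH
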