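import Pool.Agent.H18.TE.Targets
import Pool.Agent.H18.HIT.Basic
import Pool.Agent.H12.ZD.Local

/-!
# Backward heights, row PRH: maps which are the identity modulo `p` are onto
-/

set_option autoImplicit false

open MvPolynomial Filter
open Pool.Agent.H12.ZD (pmap v O Res DenseOrbit NoInv emb close_eval isUnit_O res_cast v_nonneg
  v_self_lt v_mul v_neg v_sub_comm v_sub_le')
open Pool.Agent.H18.HIT
open Pool.Agent.H8.ZA (HFam Const NA sz)
open Pool.Agent.H8.TD
open Pool.Agent.H18.TE
open scoped Topology

namespace Pool.Agent.H77.BKH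

variable (p : Nat.Primes)

/-- the embedding into the complete field -/
noncomputable def io : Qb →+* PadicComplex p :=
  (algebraMap (PadicAlgCl p) (PadicComplex p)).comp (emb p)

theorem norm_io (x : Qb) : ‖io p x‖ = v p x := PadicComplex.norm_extends p (emb p x)

theorem io_eval {N : ℕ} (q : Po N Qb) (x : Fin N → Qb) :
    io p (eval x q) = eval (fun i => io p (x i)) (map (io p) q) := by
  rw [eval_map]
  have := eval₂_comp_left (io p) (RingHom.id Qb) x q
  rw [RingHom.comp_id] at this
  exact this

/-- the jacobian is a unit -/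
theorem jac_unit {N : ℕ} (H : Tup N (O p)) (x : Fin N → O p) :
    IsUnit (eval x (jac (fl p H))) := by
  rw [← IsLocalRing.residue_ne_zero_iff_isUnit]
  have h1 : eval x (jac (fl p H)) =
      Matrix.det (Matrix.of fun i j => eval x (pderiv j (fl p H i))) := by
    unfold jac
    rw [RingHom.map_det]
    rfl
  rw [h1, RingHom.map_det]
  have h2 : (IsLocalRing.residue (O p)).mapMatrix
      (Matrix.of fun i j => eval x (pderiv j (fl p H i))) = 1 := by
    ext i j
    rw [RingHom.mapMatrix_apply, Matrix.map_apply, Matrix.of_apply]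
    unfold fl
    rw [map_add, pderiv_mul, pderiv_C, zero_mul, zero_add, map_add, map_mul, eval_C, map_add,
      map_mul, map_natCast, res_cast, zero_mul, add_zero]
    by_cases h : i = j
    · subst h
      rw [pderiv_X_self, map_one, map_one, Matrix.one_apply_eq]
    · rw [pderiv_X_of_ne h, map_zero, map_zero, Matrix.one_apply_ne h]
  rw [h2, Matrix.det_one]
  exact one_ne_zero

theorem pf_PRH (hJAL : T_JAL) : T_PRH := by
  intro N p H z
  classical
  obtain ⟨x, hx0, hxs⟩ : ∃ x : ℕ → Fin N → O p, x 0 = z ∧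
      ∀ n i, x (n + 1) i = z i - ((p : ℕ) : O p) * eval (x n) (H i) := by
    refine ⟨fun n => (fun (y : Fin N → O p) i => z i - ((p : ℕ) : O p) * eval y (H i))^[n] z,
      rfl, fun n i => ?_⟩
    simp only [Function.iterate_succ_apply']
  obtain ⟨r, hr⟩ : ∃ r : ℝ, r = v p ((p : ℕ) : Qb) := ⟨_, rfl⟩
  have hr1 : r < 1 := hr ▸ v_self_lt p
  have hr0 : 0 < r := by
    rw [hr]
    exact (Pool.Agent.H12.ZD.v_pos p).mpr (by exact_mod_cast p.2.ne_zero)
  have hstep : ∀ n i, v p ((x (n + 1) i : Qb) - x n i) < 2 * r ^ n := by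
    intro n
    induction n with
    | zero =>
      intro i
      have h1 : v p ((x (0 + 1) i : Qb) - x 0 i) ≤ 1 := v_sub_le' p (x (0 + 1) i).2 (x 0 i).2
      rw [pow_zero]
      linarith
    | succ n ih =>
      intro i
      have h1 := close_eval p (H i) (x (n + 1)) (x n) (by positivity : 0 < 2 * r ^ n) ih
      have h2 : ((x (n + 1 + 1) i : Qb) - x (n + 1) i) =
          -(((p : ℕ) : Qb) * ((eval (x (n + 1)) (H i) : O p) - (eval (x n) (H i) : O p) : Qb)) := by
        rw [hxs (n + 1) i, hxs n i]
        push_cast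
        ring
      rw [h2, v_neg, v_mul, ← hr, pow_succ]
      have := mul_lt_mul_of_pos_left h1 hr0
      linarith
  -- limits
  have hdist : ∀ i n, dist (io p (x n i : Qb)) (io p (x (n + 1) i : Qb)) ≤ 2 * r ^ n := by
    intro i n
    rw [dist_eq_norm, ← map_sub, norm_io, v_sub_comm]
    exact (hstep n i).le
  have hlim : ∀ i, ∃ y, Tendsto (fun n => io p (x n i : Qb)) atTop (𝓝 y) := fun i =>
    cauchySeq_tendsto_of_complete (cauchySeq_of_le_geometric r 2 hr1 (hdist i))
  choose y hy using hlim
  have hev : ∀ q : Po N Qb, Tendsto (fun n => io p (eval (cO (x n)) q)) atTop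
      (𝓝 (eval y (map (io p) q))) := by
    intro q
    simp only [io_eval]
    exact ((MvPolynomial.continuous_eval (map (io p) q)).tendsto _).comp (tendsto_pi_nhds.mpr hy)
  obtain ⟨f, hf⟩ : ∃ f : Fin N → Po N Qb, f = fun i => flQ p H i - C (z i : Qb) := ⟨_, rfl⟩
  have hf0 : ∀ i, eval y (map (io p) (f i)) = 0 := by
    intro i
    refine tendsto_nhds_unique (hev (f i)) ?_
    rw [tendsto_zero_iff_norm_tendsto_zero]
    have h1 : Tendsto (fun n : ℕ => 2 * r ^ n) atTop (𝓝 0) := by
      have := (tendsto_pow_atTop_nhds_zero_of_lt_one hr0.le hr1).const_mul 2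
      rwa [mul_zero] at this
    refine squeeze_zero (fun n => norm_nonneg _) (fun n => ?_) h1
    rw [norm_io]
    have h2 : eval (cO (x n)) (f i) = -((x (n + 1) i : Qb) - x n i) := by
      rw [hf]
      simp only
      rw [map_sub, eval_C]
      unfold flQ
      rw [eval_cO, hxs n i]
      unfold fl
      rw [map_add, map_mul, eval_X, eval_C]
      push_cast
      ring
    rw [h2, v_neg]
    exact (hstep n i).le
  have hjf : jac f = map (O p).subtype (jac (fl p H)) := by
    unfold jac
    rw [RingHom.map_det]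
    congr 1
    ext1 i j
    rw [Matrix.of_apply, hf]
    simp only
    rw [map_sub, pderiv_C, sub_zero]
    unfold flQ
    rw [pderiv_map]
    rfl
  have hj0 : eval y (map (io p) (jac f)) ≠ 0 := by
    have h1 := (hev (jac f)).norm
    have h2 : ∀ n, ‖io p (eval (cO (x n)) (jac f))‖ = 1 := by
      intro n
      rw [norm_io, hjf, eval_cO]
      exact (isUnit_O p).1 (jac_unit p H (x n))
    simp only [h2] at h1
    have h3 := tendsto_nhds_unique h1 tendsto_const_nhds
    intro h
    rw [h, norm_zero] at h3
    exact zero_ne_one h3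
  let _ : Algebra Qb (PadicComplex p) := (io p).toAlgebra
  have hae : ∀ q : Po N Qb, aeval y q = eval y (map (io p) q) := fun q => by
    rw [aeval_def, eval₂_eq_eval_map]
    rfl
  have halg := hJAL Qb (PadicComplex p) N f y (fun i => by rw [hae]; exact hf0 i)
    (by rw [hae]; exact hj0)
  have hP : ∀ i, ∃ P : Qb, io p P = y i := by
    intro i
    have h1 : (minpoly Qb (y i)).degree = 1 :=
      IsAlgClosed.degree_eq_one_of_irreducible Qb (minpoly.irreducible (halg i).isIntegral)
    exact minpoly.mem_range_of_degree_eq_one Qb (y i) h1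
  choose P hP using hP
  have hP1 : ∀ i, v p (P i) ≤ 1 := by
    intro i
    rw [← norm_io, hP i]
    refine le_of_tendsto (hy i).norm (Eventually.of_forall fun n => ?_)
    rw [norm_io]
    exact (x n i).2
  refine ⟨fun i => ⟨P i, hP1 i⟩, ?_⟩
  funext i
  apply Subtype.ext
  have h1 : ((pmap (fl p H) (fun i => (⟨P i, hP1 i⟩ : O p)) i : O p) : Qb) =
      eval P (flQ p H i) := (eval_cO (fl p H i) (fun i => (⟨P i, hP1 i⟩ : O p))).symm
  rw [h1]
  have h2 : eval P (f i) = 0 := by
    apply (io p).injective
    rw [io_eval, map_zero]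
    have h3 : (fun i => io p (P i)) = y := funext hP
    rw [h3]
    exact hf0 i
  rw [hf] at h2
  simp only [map_sub, eval_C] at h2
  exact sub_eq_zero.1 h2

end Pool.Agent.H77.BKH
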